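import Pool.Agent.Helper13.R6.SheetA

/-!
Rows KL1 and KL2: exactness of the Koszul complex for primitive vectors and arrays.
-/

set_option autoImplicit false

namespace Pool.Helper13.R6

theorem kl_bezout {ι : Type} [Fintype ι] (s : ι → ℤ) (h : ∀ m : ℤ, (∀ i, m ∣ s i) → IsUnit m) :
    ∃ φ : ι → ℤ, ∑ i, φ i * s i = 1 := by
  have h1 : (1 : ℤ) ∈ Ideal.span (Set.range s) := by
    obtain ⟨m, hm⟩ := (IsPrincipalIdealRing.principal (Ideal.span (Set.range s))).principal
    have h2 : ∀ i, m ∣ s i := by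
      intro i
      have h3 : s i ∈ Ideal.span (Set.range s) := Ideal.subset_span ⟨i, rfl⟩
      rw [hm] at h3
      exact Ideal.mem_span_singleton.1 h3
    have h4 := Ideal.span_singleton_eq_top.2 (h m h2)
    rw [hm]
    have h5 : (1 : ℤ) ∈ Ideal.span {m} := by rw [h4]; trivial
    exact h5
  obtain ⟨c, hc⟩ := Ideal.mem_span_range_iff_exists_fun.1 h1
  exact ⟨c, hc⟩

theorem st_KL1 : ST_KL1 := by
  intro x s _ hs hx
  obtain ⟨φ, hφ⟩ := kl_bezout s hs
  refine ⟨fun i => ∑ k, φ k * x k i, ?_⟩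
  funext i j
  have h1 : ∀ k, φ k * (s i * x k j - s j * x k i) = φ k * s k * x i j := by
    intro k
    have h2 := hx k i j
    rw [w3] at h2
    have h3 : s i * x k j - s j * x k i = s k * x i j := by linarith
    rw [h3]; ring
  calc x i j = (∑ k, φ k * s k) * x i j := by rw [hφ, one_mul]
    _ = ∑ k, φ k * (s i * x k j - s j * x k i) := by
        rw [Finset.sum_mul]
        exact Finset.sum_congr rfl fun k _ => (h1 k).symm
    _ = s i * (∑ k, φ k * x k j) - s j * ∑ k, φ k * x k i := by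
        rw [Finset.mul_sum, Finset.mul_sum, ← Finset.sum_sub_distrib]
        exact Finset.sum_congr rfl fun k _ => by ring
    _ = wdg s (fun i => ∑ k, φ k * x k i) i j := rfl

theorem st_KL2 : ST_KL2 := by
  intro s t v hp hv
  obtain ⟨ψ, hψ⟩ := kl_bezout (fun p : Fin 4 × Fin 4 => wdg s t p.1 p.2)
    (fun m hm => hp m fun i j => hm (i, j))
  refine ⟨∑ p : Fin 4 × Fin 4, ψ p * (t p.2 * v p.1 - t p.1 * v p.2),
    ∑ p : Fin 4 × Fin 4, ψ p * (s p.1 * v p.2 - s p.2 * v p.1), ?_⟩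
  funext k
  have h1 : ∀ p : Fin 4 × Fin 4, ψ p * wdg s t p.1 p.2 * v k =
      ψ p * (t p.2 * v p.1 - t p.1 * v p.2) * s k + ψ p * (s p.1 * v p.2 - s p.2 * v p.1) * t k := by
    intro p
    have h2 := hv p.1 p.2 k
    rw [w3] at h2
    have h3 : wdg s t p.1 p.2 * v k = wdg s t p.1 k * v p.2 - wdg s t p.2 k * v p.1 := by linarith
    rw [mul_assoc, h3]
    simp only [wdg]
    ring
  calc v k = (∑ p : Fin 4 × Fin 4, ψ p * wdg s t p.1 p.2) * v k := by rw [hψ, one_mul]
    _ = ∑ p : Fin 4 × Fin 4, (ψ p * (t p.2 * v p.1 - t p.1 * v p.2) * s k +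
          ψ p * (s p.1 * v p.2 - s p.2 * v p.1) * t k) := by
        rw [Finset.sum_mul]
        exact Finset.sum_congr rfl fun p _ => h1 p
    _ = (∑ p : Fin 4 × Fin 4, ψ p * (t p.2 * v p.1 - t p.1 * v p.2)) * s k +
          (∑ p : Fin 4 × Fin 4, ψ p * (s p.1 * v p.2 - s p.2 * v p.1)) * t k := by
        rw [Finset.sum_add_distrib, Finset.sum_mul, Finset.sum_mul]
    _ = _ := by simp [Pi.add_apply, Pi.smul_apply]

end Pool.Helper13.R6
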